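import Pool.Agent.MP_961ca8_al.H15.Spec

/-! No nonzero section on the generic fibre. -/

namespace Pool.Agent.MP_961ca8_al.H15

namespace NG

section Uni

open Polynomial

variable {K : Type} [Field K]

theorem uni1 {H : K[X]} (hH : H ≠ 0) {q : ℕ} (hq : 0 < q) :
    ∃ b B, b ≤ q ∧ (H * X ^ b).coeff (q * B) ≠ 0 := by
  refine ⟨q - H.natDegree % q, H.natDegree / q + 1, Nat.sub_le _ _, ?_⟩
  have h1 := Nat.mod_lt H.natDegree hq
  have h2 := Nat.div_add_mod H.natDegree q
  rw [show q * (H.natDegree / q + 1) = H.natDegree + (q - H.natDegree % q) by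
    rw [mul_add]; omega, coeff_mul_X_pow]
  exact leadingCoeff_ne_zero.2 hH

theorem taylor_sum {ψ : K[X]} (h : ∀ n, 9 ≤ n → ψ.coeff n = 0) (r : K) (k : ℕ) :
    (taylor r ψ).coeff k = ∑ n ∈ Finset.range 9, (n.choose k : K) * r ^ (n - k) * ψ.coeff n := by
  have h1 : ψ.natDegree < 9 := Nat.lt_succ_of_le (natDegree_le_iff_coeff_eq_zero.2 h)
  conv_lhs => rw [as_sum_range' ψ 9 h1]
  rw [taylor_coeff, map_sum, eval_finsetSum]
  refine Finset.sum_congr rfl fun n _ => ?_
  rw [hasseDeriv_monomial, eval_monomial]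
  ring

theorem uni2 {q : ℕ} (hq : 0 < q) (M k : ℕ) {t r : K} (ht : t ≠ 0)
    (e1 : expand K q (X - C r) = (X - C t) ^ q) {H₁ H : K[X]} (h1 : H₁.eval t ≠ 0)
    (hH : H = X ^ (M * q) * (X - C t) ^ (q * k + (q - 1)) * H₁)
    (h9 : ∀ n, 9 ≤ n → H.coeff ((M + n) * q) = 0) :
    ∑ n ∈ Finset.range 9, (n.choose k : K) * r ^ (n - k) * H.coeff ((M + n) * q) ≠ 0 := by
  obtain ⟨H₂, e2⟩ : X - C t ∣ H₁ - C (H₁.eval t) := X_sub_C_dvd_sub_C_eval
  generalize H₁.eval t = c at h1 e2
  have e3 : contract q (C c * (X - C t) ^ (q - 1)) = C (c * (-t) ^ (q - 1)) := by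
    ext n
    rw [coeff_contract hq.ne', coeff_C]
    split_ifs with hn
    · simp [hn, coeff_zero_eq_eval_zero]
    · refine coeff_eq_zero_of_natDegree_lt ((natDegree_C_mul_le _ _).trans_lt ?_)
      rw [natDegree_pow, natDegree_X_sub_C, mul_one]
      have := Nat.le_mul_of_pos_left q (Nat.pos_of_ne_zero hn)
      omega
  have e4 : H = (C c * (X - C t) ^ (q - 1) + H₂ * expand K q (X - C r)) *
      expand K q ((X - C r) ^ k * X ^ M) := by
    have e5 : (X - C t) ^ q = (X - C t) ^ (q - 1) * (X - C t) := by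
      rw [← pow_succ, Nat.sub_add_cancel hq]
    rw [map_mul, map_pow, map_pow, e1, expand_X, hH, pow_add, pow_mul _ q k, pow_mul' _ M q,
      eq_add_of_sub_eq e2]
    generalize ((X - C t) ^ q) ^ k = Y
    rw [e5]
    ring
  have e6 : contract q H =
      (C (c * (-t) ^ (q - 1)) + contract q H₂ * (X - C r)) * (X - C r) ^ k * X ^ M := by
    rw [e4, contract_mul_expand hq.ne', contract_add hq.ne', e3, contract_mul_expand hq.ne',
      mul_assoc]
  have e7 : ∀ n, H.coeff ((M + n) * q) =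
      ((C (c * (-t) ^ (q - 1)) + contract q H₂ * (X - C r)) * (X - C r) ^ k).coeff n := fun n => by
    rw [← coeff_contract hq.ne', e6, add_comm M, coeff_mul_X_pow]
  simp only [e7] at h9 ⊢
  rw [← taylor_sum h9, taylor_mul, taylor_pow, map_sub, taylor_X, taylor_C, add_sub_cancel_right,
    coeff_mul_X_pow', if_pos le_rfl, Nat.sub_self, taylor_coeff_zero]
  simp [h1, ht]

end Uni

open MvPolynomial

variable {K : Type} [Field K]

theorem ex_self (i : Fin 3) (a b c : ℕ) :
    ex i a b c i = a ∧ ex i a b c (i + 1) = b ∧ ex i a b c (i + 2) = c := by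
  fin_cases i <;> simp [ex]

theorem eq_ex (i : Fin 3) (d : Fin 3 →₀ ℕ) : d = ex i (d i) (d (i + 1)) (d (i + 2)) := by
  ext k
  fin_cases i <;> fin_cases k <;> simp [ex]

theorem deg_eq (i : Fin 3) (d : Fin 3 →₀ ℕ) : d.degree = d i + d (i + 1) + d (i + 2) := by
  rw [Finsupp.degree_eq_sum, Fin.sum_univ_three]
  fin_cases i <;> simp <;> omega

theorem smul_ex (q : ℕ) (i : Fin 3) (a b c : ℕ) : q • ex i a b c = ex i (q * a) (q * b) (q * c) := by
  simp [ex]

/-- the values of the variables -/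
noncomputable def val (K : Type) [Field K] (i k : Fin 3) : Polynomial (Polynomial K) :=
  if k = i then Polynomial.X else if k = i + 1 then Polynomial.C Polynomial.X else 1

theorem val_eq (i : Fin 3) :
    val K i i = Polynomial.X ∧ val K i (i + 1) = Polynomial.C Polynomial.X ∧
      val K i (i + 2) = 1 := by
  fin_cases i <;> simp [val]

/-- dehomogenisation -/
noncomputable def ev (i : Fin 3) : P K →ₐ[K] Polynomial (Polynomial K) := aeval (val K i)

theorem ev_mono (i : Fin 3) (d : Fin 3 →₀ ℕ) (c : K) : ev i (monomial d c) =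
    Polynomial.monomial (d i) (Polynomial.monomial (d (i + 1)) c) := by
  have h : ∏ k, val K i k ^ d k = val K i i ^ d i * val K i (i + 1) ^ d (i + 1) *
      val K i (i + 2) ^ d (i + 2) := by
    rw [Fin.prod_univ_three]
    fin_cases i <;> simp <;> ring
  rw [ev, aeval_monomial, Finsupp.prod_fintype _ _ fun _ => pow_zero _, h, (val_eq i).1,
    (val_eq i).2.1, (val_eq i).2.2, ← Polynomial.C_mul_X_pow_eq_monomial,
    ← Polynomial.C_mul_X_pow_eq_monomial, Polynomial.algebraMap_apply, Polynomial.algebraMap_eq]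
  simp only [map_mul, map_pow]
  ring

theorem ev_coeff (i : Fin 3) (g : P K) (a n : ℕ) : ((ev i g).coeff a).coeff n =
    ∑ d ∈ g.support, if d i = a ∧ d (i + 1) = n then coeff d g else 0 := by
  conv_lhs => rw [g.as_sum]
  rw [map_sum, Polynomial.finsetSum_coeff, Polynomial.finsetSum_coeff]
  refine Finset.sum_congr rfl fun d _ => ?_
  rw [ev_mono, Polynomial.coeff_monomial]
  by_cases h1 : d i = a <;> simp [h1, Polynomial.coeff_monomial]

theorem ev_eq (i : Fin 3) {g : P K} {D a n c : ℕ} (hg : g.IsHomogeneous D) (h : a + n + c = D) :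
    ((ev i g).coeff a).coeff n = coeff (ex i a n c) g := by
  obtain ⟨e1, e2, -⟩ := ex_self i a n c
  rw [ev_coeff, Finset.sum_eq_single (ex i a n c), if_pos ⟨e1, e2⟩]
  · intro d hd hne
    refine if_neg fun H => hne ?_
    have h1 : d.degree = D := by_contra fun h' => mem_support_iff.1 hd (hg.coeff_eq_zero h')
    rw [deg_eq i] at h1
    rw [eq_ex i d, H.1, H.2, show d (i + 2) = c by omega]
  · intro h'
    rw [notMem_support_iff.1 h', ite_self]

theorem ev_ne (i : Fin 3) {g : P K} {D a n : ℕ} (hg : g.IsHomogeneous D)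
    (h : ((ev i g).coeff a).coeff n ≠ 0) : ∃ c, a + n + c = D ∧ coeff (ex i a n c) g ≠ 0 := by
  have h1 := h
  rw [ev_coeff] at h1
  obtain ⟨d, hd, h2⟩ := Finset.exists_ne_zero_of_sum_ne_zero h1
  have h3 : d i = a ∧ d (i + 1) = n := by_contra fun h' => h2 (if_neg h')
  have h4 : d.degree = D := by_contra fun h' => mem_support_iff.1 hd (hg.coeff_eq_zero h')
  rw [deg_eq i, h3.1, h3.2] at h4
  exact ⟨_, h4, by rwa [← ev_eq i hg h4]⟩

theorem uu_hom (s : K) (i : Fin 3) : (uu s i).IsHomogeneous 1 :=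
  (isHomogeneous_X K _).add (isHomogeneous_C_mul_X s _)

theorem th_hom (s : K) (i : Fin 3) : (th s i).IsHomogeneous 4 := by
  rw [th, ← C_pow]
  exact (isHomogeneous_X K _).mul (((uu_hom s i).pow 3).add
    ((((uu_hom s _).pow 3).sub (isHomogeneous_X_pow _ 3)).C_mul _))

theorem hh_hom (i : Fin 3) : (hh i : P K).IsHomogeneous 4 :=
  (((isHomogeneous_X K _).mul (isHomogeneous_X K _)).mul (isHomogeneous_X K _)).mul
    (isHomogeneous_X K _)

theorem th_mem (s : K) (i : Fin 3) : th s i ∈ Aalg s := Algebra.subset_adjoin (.inl ⟨i, rfl⟩)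

theorem hh_mem (s : K) (i : Fin 3) : hh i ∈ Aalg s := Algebra.subset_adjoin (.inr ⟨i, rfl⟩)

theorem ev_hh (i : Fin 3) :
    ev i (hh (i + 1) : P K) = Polynomial.X * Polynomial.C (Polynomial.X ^ 2) := by
  fin_cases i <;> simp [ev, hh, val] <;> ring

theorem ev_th (s : K) (i : Fin 3) :
    (ev i (th s i)).coeff 0 = (Polynomial.X - Polynomial.C (-s)) ^ 3 := by
  rw [Polynomial.coeff_zero_eq_eval_zero]
  fin_cases i <;> simp [ev, th, uu, val]

theorem ev_th2 (s : K) (i : Fin 3) : (ev i (th s (i + 2))).coeff 0 =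
    Polynomial.C (s ^ 3) * ((Polynomial.X - Polynomial.C (-s)) ^ 3 * Polynomial.X) := by
  rw [Polynomial.coeff_zero_eq_eval_zero]
  fin_cases i <;> simp [ev, th, uu, val] <;> ring

theorem gen_X {s : K} (hs : s ≠ 0) (i : Fin 3) : ∃ A ∈ Aalg s, A.IsHomogeneous 4 ∧
    (ev i A).coeff 0 = (Polynomial.X - Polynomial.C (-s)) ^ 3 * Polynomial.X := by
  refine ⟨C (s ^ 3)⁻¹ * th s (i + 2), mul_mem ((Aalg s).algebraMap_mem _) (th_mem s _),
    (th_hom s _).C_mul _, ?_⟩
  rw [map_mul, ev, aeval_C, Polynomial.algebraMap_apply, Polynomial.algebraMap_eq,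
    Polynomial.coeff_C_mul, ← ev, ev_th2, ← mul_assoc, ← map_mul,
    inv_mul_cancel₀ (pow_ne_zero 3 hs), map_one, one_mul]

theorem gen_u {s : K} (hs : s ≠ 0) (i : Fin 3) : ∃ A ∈ Aalg s, A.IsHomogeneous 4 ∧
    (ev i A).coeff 0 =
      (Polynomial.X - Polynomial.C (-s)) ^ 3 * (Polynomial.X - Polynomial.C (-s)) := by
  obtain ⟨A, h1, h2, h3⟩ := gen_X hs i
  refine ⟨A + C s * th s i, add_mem h1 (mul_mem ((Aalg s).algebraMap_mem _) (th_mem s _)),
    h2.add ((th_hom s _).C_mul _), ?_⟩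
  rw [map_add, Polynomial.coeff_add, h3, map_mul, ev, aeval_C, Polynomial.algebraMap_apply,
    Polynomial.algebraMap_eq, Polynomial.coeff_C_mul, ← ev, ev_th, map_neg]
  ring

theorem rows {s : K} {i : Fin 3} {G A : P K} {o : ℕ} {w : Polynomial K}
    (hG : ∀ a < o, (ev i G).coeff a = 0) (h1 : A ∈ Aalg s) (h2 : A.IsHomogeneous 4)
    (h3 : (ev i A).coeff 0 = (Polynomial.X - Polynomial.C (-s)) ^ 3 * w) (j m b N : ℕ)
    (hb : b ≤ m) (hN : N = 4 * (j + m)) :
    ∃ f ∈ Aalg s, f.IsHomogeneous N ∧ (ev i (G * f)).coeff (o + j) = (ev i G).coeff o *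
      Polynomial.X ^ (2 * j) * (Polynomial.X - Polynomial.C (-s)) ^ (3 * m) * w ^ b := by
  obtain ⟨a, rfl⟩ := Nat.exists_eq_add_of_le hb
  obtain ⟨G', hG'⟩ := Polynomial.X_pow_dvd_iff.2 hG
  refine ⟨hh (i + 1) ^ j * (A ^ b * th s i ^ a),
    mul_mem (pow_mem (hh_mem s _) _) (mul_mem (pow_mem h1 _) (pow_mem (th_mem s _) _)), ?_, ?_⟩
  · rw [hN, mul_add, mul_add]
    exact ((hh_hom _).pow j).mul ((h2.pow b).mul ((th_hom s i).pow a))
  · have e1 : ev i (G * (hh (i + 1) ^ j * (A ^ b * th s i ^ a))) = Polynomial.X ^ (o + j) *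
        (G' * Polynomial.C (Polynomial.X ^ 2) ^ j * ev i A ^ b * ev i (th s i) ^ a) := by
      simp only [map_mul, map_pow (ev i), ev_hh, hG']
      ring
    have e2 : ∀ (n : ℕ) (F : Polynomial (Polynomial K)),
        (Polynomial.X ^ n * F).coeff n = Polynomial.constantCoeff F := fun n F => by
      rw [Polynomial.coeff_X_pow_mul', if_pos le_rfl, Nat.sub_self]
      rfl
    rw [e1, hG', e2, e2]
    simp only [map_mul, map_pow Polynomial.constantCoeff, Polynomial.constantCoeff_apply, h3, ev_th,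
      Polynomial.coeff_C_zero]
    generalize Polynomial.X - Polynomial.C (-s) = u
    ring

end NG

open MvPolynomial NG in
theorem ng : NGStmt := by
  intro p _ K _ _ s hs e M D G hD hG H1 H2
  by_contra h0
  have hq : 0 < p ^ e := pow_pos (Fact.out : p.Prime).pos e
  have e1 : Polynomial.expand K (p ^ e) (Polynomial.X - Polynomial.C ((-s) ^ p ^ e)) =
      (Polynomial.X - Polynomial.C (-s)) ^ p ^ e := by
    rw [map_sub, Polynomial.expand_X, Polynomial.expand_C, sub_pow_char_pow, Polynomial.C_pow]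
  generalize (-s) ^ p ^ e = r at H2 e1
  generalize p ^ e = q at hD H1 H2 hq e1
  obtain ⟨⟨d, i⟩, hd, hmin⟩ := (G.support ×ˢ (Finset.univ : Finset (Fin 3))).exists_min_image
    (fun z => z.1 z.2) ((support_nonempty.2 h0).product Finset.univ_nonempty)
  have hd0 : coeff d G ≠ 0 := mem_support_iff.1 (Finset.mem_product.1 hd).1
  have hm : ∀ a n c, coeff (ex i a n c) G ≠ 0 → d i ≤ a ∧ d i ≤ n ∧ d i ≤ c := fun a n c h => by
    have h1 := fun k => hmin (ex i a n c, k)
      (Finset.mem_product.2 ⟨mem_support_iff.2 h, Finset.mem_univ _⟩)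
    obtain ⟨e2, e3, e4⟩ := ex_self i a n c
    exact ⟨(h1 i).trans_eq e2, (h1 (i + 1)).trans_eq e3, (h1 (i + 2)).trans_eq e4⟩
  have hdeg : d i + d (i + 1) + d (i + 2) = D := by
    rw [← deg_eq i]
    exact by_contra fun h' => hd0 (hG.coeff_eq_zero h')
  have hγ : (ev i G).coeff (d i) ≠ 0 := fun h => hd0 (by
    rw [eq_ex i d, ← ev_eq i hG hdeg, h, Polynomial.coeff_zero])
  have h3 := hm _ _ _ (by rwa [← eq_ex i d])
  generalize d i = o at hm hdeg hγ h3
  have hlow : ∀ a < o, (ev i G).coeff a = 0 := fun a ha => Polynomial.ext fun n => by_contra fun h => by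
    obtain ⟨c, -, h1⟩ := ev_ne i hG h
    exact absurd (hm _ _ _ h1).1 (by omega)
  have hprod : ∀ f : P K, f.IsHomogeneous (4 + 8 * q) → (G * f).IsHomogeneous (q * (3 * M + 8)) :=
    fun f hf => by
      rw [show q * (3 * M + 8) = D + (4 + 8 * q) by rw [← add_assoc, hD]; ring]
      exact hG.mul hf
  have key : ∀ f ∈ Aalg s, f.IsHomogeneous (4 + 8 * q) → ∀ a n,
      ((ev i (G * f)).coeff (q * a)).coeff (q * n) ≠ 0 → M ≤ a ∧ a + n + M ≤ 3 * M + 8 :=
    fun f hf hf' a n h => by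
      obtain ⟨c, h1, h2⟩ := ev_ne i (hprod f hf') h
      have h4 : a + n ≤ 3 * M + 8 := Nat.le_of_mul_le_mul_left (by rw [mul_add]; omega) hq
      obtain ⟨c', hc'⟩ := Nat.exists_eq_add_of_le h4
      rw [hc', mul_add, mul_add, Nat.add_left_cancel_iff] at h1
      rw [h1, ← smul_ex] at h2
      obtain ⟨e2, -, e4⟩ := ex_self i a n c'
      constructor
      · exact by_contra fun h5 => h2 (H1 f hf hf' _ ⟨i, by omega⟩)
      · exact by_contra fun h5 => h2 (H1 f hf hf' _ ⟨i + 2, by omega⟩)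
  obtain ⟨E, hE⟩ : ∃ E, o + E = M * q := ⟨M * q - o, by rw [mul_assoc] at hD; omega⟩
  have hu : Polynomial.X - Polynomial.C (-s) ≠ 0 := Polynomial.X_sub_C_ne_zero _
  rcases le_or_gt q E with hqE | hqE
  · have h4 := Nat.mod_lt E hq
    have h5 := Nat.div_add_mod E q
    have h6 : 0 < E / q := Nat.div_pos hqE hq
    have h7 : E / q ≤ M := Nat.le_of_mul_le_mul_left (by rw [mul_comm q M]; omega) hq
    obtain ⟨b, B, hb, hne⟩ := uni1 (mul_ne_zero (mul_ne_zero hγ
      (pow_ne_zero (2 * (E % q)) Polynomial.X_ne_zero)) (pow_ne_zero (3 * (1 + 2 * q - E % q)) hu)) hq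
    obtain ⟨A, a1, a2, a3⟩ := gen_X hs i
    obtain ⟨f, f1, f2, f3⟩ := rows hlow a1 a2 a3 (E % q) (1 + 2 * q - E % q) b (4 + 8 * q)
      (by omega) (by omega)
    rw [← f3, show o + E % q = q * (M - E / q) by rw [Nat.mul_sub, mul_comm q M]; omega] at hne
    have := (key f f1 f2 _ _ hne).1
    omega
  · obtain ⟨g₁, hg₁⟩ : Polynomial.X ^ o ∣ (ev i G).coeff o :=
      Polynomial.X_pow_dvd_iff.2 fun n hn => by_contra fun h => by
        obtain ⟨c, -, h1⟩ := ev_ne i hG h
        exact absurd (hm _ _ _ h1).2.1 (by omega)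
    have hg0 : g₁ ≠ 0 := fun h => hγ (by rw [hg₁, h, mul_zero])
    have hg1 : g₁.natDegree + 3 * o ≤ D := by
      have h1 : ((ev i G).coeff o).coeff (g₁.natDegree + o) ≠ 0 := by
        rw [hg₁, Polynomial.coeff_X_pow_mul]
        exact Polynomial.leadingCoeff_ne_zero.2 hg0
      obtain ⟨c, h2, h4⟩ := ev_ne i hG h1
      have := (hm _ _ _ h4).2.2
      omega
    obtain ⟨g₂, hg₂, hg₃⟩ := Polynomial.exists_eq_pow_rootMultiplicity_mul_and_not_dvd g₁ hg0 (-s)
    have ht : g₁.rootMultiplicity (-s) ≤ g₁.natDegree := by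
      have := Polynomial.natDegree_le_of_dvd ⟨g₂, hg₂⟩ hg0
      rwa [Polynomial.natDegree_pow, Polynomial.natDegree_X_sub_C, mul_one] at this
    generalize g₁.rootMultiplicity (-s) = t at hg₂ ht
    have h4 := Nat.mod_lt (t + 3 * (1 + 2 * q - E)) hq
    have h5 := Nat.div_add_mod (t + 3 * (1 + 2 * q - E)) q
    have h6 : (t + 3 * (1 + 2 * q - E)) / q < 6 :=
      (Nat.div_lt_iff_lt_mul hq).2 (by rw [mul_assoc] at hD; omega)
    generalize (t + 3 * (1 + 2 * q - E)) / q = k at h5 h6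
    generalize (t + 3 * (1 + 2 * q - E)) % q = l at h4 h5
    obtain ⟨A, a1, a2, a3⟩ := gen_u hs i
    obtain ⟨f, f1, f2, f3⟩ := rows hlow a1 a2 a3 E (1 + 2 * q - E) (q - 1 - l) (4 + 8 * q)
      (by omega) (by omega)
    have h7 := uni2 hq M k (neg_ne_zero.2 hs) e1 (H₁ := Polynomial.X ^ E * g₂)
      (H := (ev i (G * f)).coeff (q * M))
      (by simpa [hs] using fun h => hg₃ (Polynomial.dvd_iff_isRoot.2 h)) (by
        rw [mul_comm q M, ← hE, f3, hg₁, hg₂,
          show q * k + (q - 1) = t + 3 * (1 + 2 * q - E) + (q - 1 - l) by omega]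
        ring) fun n hn => by_contra fun h => by
        rw [mul_comm (M + n)] at h
        have := (key f f1 f2 _ _ h).2
        omega
    refine h7 (Eq.trans (Finset.sum_congr rfl fun n hn => ?_) (H2 f f1 f2 i k (by omega)))
    have h8 := Finset.mem_range.1 hn
    rw [smul_ex, mul_comm (M + n), ev_eq i (hprod f f2) (c := q * (M + (8 - n)))]
    rw [← mul_add, ← mul_add]
    congr 1
    omega

end Pool.Agent.MP_961ca8_al.H15
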